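import Pool.Agent.W893.EV.Grp

set_option autoImplicit false

/-! Almost all monotone functions invariant under a permutation group are evasive:
assembly. helper893, for MP_d4e2f9_lc. -/

namespace Pool.Agent.W893.EV

open Finset

variable {n : ℕ} (G : Subgroup (Equiv.Perm (Fin n)))

theorem orbits_zero (k : ℕ) (hk : n < k) : orbits G k = 0 := by
  classical
  rw [← orbits_eq, Finset.card_eq_zero, Finset.filter_eq_empty_iff]
  intro a _ h
  unfold rkQ at h
  have := Finset.card_le_univ (Quotient.out a)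
  rw [Fintype.card_fin] at this
  omega

theorem pow_le (n : ℕ) : 2 ^ n ≤ (n + 1) * n.choose (n / 2) := by
  rw [← Nat.sum_range_choose]
  calc ∑ k ∈ Finset.range (n + 1), n.choose k ≤
      ∑ _k ∈ Finset.range (n + 1), n.choose (n / 2) :=
        Finset.sum_le_sum (fun k _ => Nat.choose_le_middle k n)
    _ = _ := by rw [Finset.sum_const, Finset.card_range, smul_eq_mul]

/-- the inequality with the maximal number of orbits -/
theorem partOne (hE : EUL) (hn : 1 ≤ n) (M : ℕ) (hM : ∀ k, orbits G k ≤ M)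
    (hk : ∃ k, orbits G k = M) :
    ({f | f ∈ Inv G ∧ ¬ Evasive f}.ncard : ℝ) * Real.sqrt M ≤
      15 * Real.sqrt (Nat.clog 2 ((n + 1) * M + 1)) * (Inv G).ncard := by
  obtain ⟨k, rfl⟩ := hk
  have hpos : 1 ≤ Fintype.card (QQ G) := Fintype.card_pos_iff.2 ⟨cls G ∅⟩
  have hc := card_QQ G _ hM
  refine main G hE hn _ ?_ ?_ k
  · apply Nat.clog_pos (by norm_num)
    omega
  · refine le_trans ?_ (Nat.le_pow_clog (by norm_num) _)
    omega

/-- the inequality with the order of the group -/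
theorem partTwo (hE : EUL) (hO : ORD) (hn : 1 ≤ n) :
    {f | f ∈ Inv G ∧ ¬ Evasive f}.ncard ^ 2 * 2 ^ n ≤
      225 * (n + 1) ^ 2 * Nat.card G * (Inv G).ncard ^ 2 := by
  have h1 := main G hE hn (n + 1) (by omega) (by
    have := card_QQ' G
    have h2 : 2 ^ (n + 1) = 2 ^ n + 2 ^ n := by ring
    have h3 : 1 ≤ 2 ^ n := Nat.one_le_two_pow
    omega) (n / 2)
  set x := {f | f ∈ Inv G ∧ ¬ Evasive f}.ncard
  set y := (Inv G).ncard
  have h2 : ((x : ℝ) * Real.sqrt (orbits G (n / 2))) ^ 2 ≤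
      (15 * Real.sqrt ((n + 1 : ℕ) : ℝ) * y) ^ 2 := by
    apply pow_le_pow_left₀ (by positivity) h1
  rw [mul_pow, mul_pow, mul_pow, Real.sq_sqrt (by positivity), Real.sq_sqrt (by positivity)] at h2
  have h3 : x ^ 2 * orbits G (n / 2) ≤ 225 * (n + 1) * y ^ 2 := by
    have : ((x ^ 2 * orbits G (n / 2) : ℕ) : ℝ) ≤ ((225 * (n + 1) * y ^ 2 : ℕ) : ℝ) := by
      push_cast
      push_cast at h2
      nlinarith
    exact_mod_cast this
  have h4 := hO n (n / 2) G
  calc x ^ 2 * 2 ^ n ≤ x ^ 2 * ((n + 1) * n.choose (n / 2)) :=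
        Nat.mul_le_mul_left _ (pow_le n)
    _ ≤ x ^ 2 * ((n + 1) * (Nat.card G * orbits G (n / 2))) :=
        Nat.mul_le_mul_left _ (Nat.mul_le_mul_left _ h4)
    _ = (n + 1) * Nat.card G * (x ^ 2 * orbits G (n / 2)) := by ring
    _ ≤ (n + 1) * Nat.card G * (225 * (n + 1) * y ^ 2) := Nat.mul_le_mul_left _ h3
    _ = _ := by ring

theorem evasive_of_mu (hE : EUL) (f : (Fin n → Bool) → Bool)
    (h : ∑ A : Finset (Fin n), (-1 : ℤ) ^ #A * (if f (ind A) = true then 1 else 0) ≠ 0) :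
    Evasive f := by
  intro k hk
  by_contra hlt
  exact h (hE n k f (by omega) hk)

/-- the uniform statement -/
theorem partThree (hE : EUL) (hA : ALT) (hI : IMP) (hO : ORD) (hS : ASY) :
    ∀ ε : ℝ, 0 < ε → ∃ N : ℕ, ∀ n : ℕ, N ≤ n → ∀ G : Subgroup (Equiv.Perm (Fin n)), Trans G →
      (Imprim G ∨ alternatingGroup (Fin n) ≤ G ∨ Nat.card G * n ^ 2 ≤ 2 ^ n) →
      ({f | f ∈ Inv G ∧ ¬ Evasive f}.ncard : ℝ) ≤ ε * (Inv G).ncard := by
  intro ε hε
  obtain ⟨N, hN⟩ := hS ε hε
  refine ⟨N + 3, fun n hn G hT hG => ?_⟩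
  have key : (∃ k, n ≤ 4 * orbits G k ^ 2) →
      ({f | f ∈ Inv G ∧ ¬ Evasive f}.ncard : ℝ) ≤ ε * (Inv G).ncard := by
    rintro ⟨k, hk⟩
    obtain ⟨m, -, hm⟩ := Finset.exists_max_image (Finset.range (n + 1)) (orbits G)
      ⟨0, Finset.mem_range.2 (by omega)⟩
    have hmax : ∀ j, orbits G j ≤ orbits G m := by
      intro j
      by_cases hj : j ≤ n
      · exact hm j (Finset.mem_range.2 (by omega))
      · rw [orbits_zero G j (by omega)]
        exact Nat.zero_le _
    have h1 := partOne G hE (by omega) (orbits G m) hmax ⟨m, rfl⟩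
    have h2 : n ≤ 4 * orbits G m ^ 2 :=
      hk.trans (Nat.mul_le_mul_left _ (Nat.pow_le_pow_left (hmax k) 2))
    have h3 := hN n (orbits G m) (by omega) h2
    have h4 : 0 < orbits G m := by
      by_contra h0
      have : orbits G m = 0 := by omega
      rw [this] at h2
      omega
    have h5 : 0 < Real.sqrt (orbits G m) := Real.sqrt_pos.2 (by exact_mod_cast h4)
    have h6 : ({f | f ∈ Inv G ∧ ¬ Evasive f}.ncard : ℝ) * Real.sqrt (orbits G m) ≤
        (ε * (Inv G).ncard) * Real.sqrt (orbits G m) := by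
      calc _ ≤ 15 * Real.sqrt (Nat.clog 2 ((n + 1) * orbits G m + 1)) * (Inv G).ncard := h1
        _ ≤ (ε * Real.sqrt (orbits G m)) * (Inv G).ncard :=
            mul_le_mul_of_nonneg_right h3 (by positivity)
        _ = _ := by ring
    exact le_of_mul_le_mul_right h6 h5
  rcases hG with h | h | h
  · exact key (hI n G hT h)
  · have h0 : {f | f ∈ Inv G ∧ ¬ Evasive f} = ∅ := by
      ext f
      simp only [Set.mem_setOf_eq, Set.mem_empty_iff_false, iff_false, not_and, not_not]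
      intro hf
      exact evasive_of_mu hE f (hA n (by omega) G h f hf)
    rw [h0, Set.ncard_empty]
    simp only [Nat.cast_zero]
    positivity
  · apply key
    refine ⟨n / 2, ?_⟩
    have h1 := hO n (n / 2) G
    have h2 := pow_le n
    set o := orbits G (n / 2)
    set c := Nat.card G
    have hc : 0 < c := Nat.card_pos
    have h3 : c * n ^ 2 ≤ c * ((n + 1) * o) := by
      calc c * n ^ 2 ≤ 2 ^ n := h
        _ ≤ (n + 1) * n.choose (n / 2) := h2
        _ ≤ (n + 1) * (c * o) := Nat.mul_le_mul_left _ h1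
        _ = c * ((n + 1) * o) := by ring
    have h4 : n ^ 2 ≤ (n + 1) * o := Nat.le_of_mul_le_mul_left h3 hc
    have h5 : n ≤ 2 * o := by
      by_contra hlt
      have : 2 * o + 1 ≤ n := by omega
      nlinarith
    nlinarith

end Pool.Agent.W893.EV
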