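import Pool.Agent.W893.EV.Stm
import Pool.Agent.W431.EVALT
import Pool.Agent.W690.EVEUL
import Pool.Agent.W308.EVORD
import Pool.Agent.W67.EVIMP
import Pool.Agent.W893.EV.PAsy

set_option autoImplicit false

/-! The parts of project EV: EUL (helper690), ALT (helper431), ORD (helper308), IMP (helper67),
ASY (helper62). -/

namespace Pool.Agent.W893.EV

theorem eul : EUL := Pool.Agent.W690.EVEUL.EUL_proof
theorem alt : ALT := Pool.Agent.W431.EVALT.ALT_proof
theorem ord : ORD := Pool.Agent.W308.EVORD.ORD_proof
theorem imp : IMP := Pool.Agent.W67.EVIMP.IMP_proof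
theorem asy : ASY := Pool.Agent.W62.EVASY.ASY_proof

end Pool.Agent.W893.EV
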