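import Pool.Agent.W912.KA.Abs

set_option autoImplicit false

/-! Counting up-closed sets of a graded relation with vanishing weighted Euler characteristic,
sharper form: all ranks of one parity are changed at the same time (so there is no loss of a
power of the number of ranks). helper893, for MP_d4e2f9_lc; uses helper912's file. -/

namespace Pool.Agent.W893.EV

open Finset
open Pool.Agent.W912.KA (Cl S mu mem_S lo choose_sq small_sets card_S_ge)

section abs
variable {Q : Type} [Fintype Q] [DecidableEq Q] (rk : Q → ℕ) (R : Q → Q → Prop) (w : Q → ℕ)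

open Classical in
/-- free elements whose rank has parity `p` -/
noncomputable def Fr (p : ℕ) (U : Finset Q) : Finset Q :=
  univ.filter (fun x => rk x % 2 = p ∧ (∀ b, R b x → b ∉ U) ∧ (∀ b, R x b → b ∈ U))

theorem mem_Fr (k : ℕ) (U : Finset Q) (x : Q) :
    x ∈ Fr rk R k U ↔ rk x % 2 = k ∧ (∀ b, R b x → b ∉ U) ∧ (∀ b, R x b → b ∈ U) := by
  simp [Fr]

theorem Fr_congr (hR : ∀ a b, R a b → rk b = rk a + 1) (k : ℕ) (U V : Finset Q)
    (h : ∀ x, rk x % 2 ≠ k → (x ∈ U ↔ x ∈ V)) : Fr rk R k U = Fr rk R k V := by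
  ext x
  rw [mem_Fr, mem_Fr]
  constructor
  · rintro ⟨h1, h2, h3⟩
    refine ⟨h1, fun b hb hbV => h2 b hb ((h b ?_).2 hbV), fun b hb => (h b ?_).1 (h3 b hb)⟩
    · have := hR b x hb; omega
    · have := hR x b hb; omega
  · rintro ⟨h1, h2, h3⟩
    refine ⟨h1, fun b hb hbV => h2 b hb ((h b ?_).1 hbV), fun b hb => (h b ?_).2 (h3 b hb)⟩
    · have := hR b x hb; omega
    · have := hR x b hb; omega

/-- changing a closed set on its free elements of parity `k` -/
theorem cl_change (hR : ∀ a b, R a b → rk b = rk a + 1) (k : ℕ) (U : Finset Q) (hU : Cl R U)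
    (A : Finset Q) (hA : A ⊆ Fr rk R k U) : Cl R ((U \ Fr rk R k U) ∪ A) := by
  intro a b hab ha
  rw [Finset.mem_union, Finset.mem_sdiff] at ha ⊢
  rcases ha with ⟨ha, haF⟩ | ha
  · have hb : b ∈ U := hU a b hab ha
    left
    refine ⟨hb, fun hbF => ?_⟩
    rw [mem_Fr] at hbF
    exact hbF.2.1 a hab ha
  · have haF := hA ha
    rw [mem_Fr] at haF
    left
    refine ⟨haF.2.2 b hab, fun hbF => ?_⟩
    rw [mem_Fr] at hbF
    have := hR a b hab
    omega

/-- the part of a closed set which is not free of parity `k` -/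
noncomputable def core (k : ℕ) (U : Finset Q) : Finset Q := U \ Fr rk R k U

theorem Fr_core (hR : ∀ a b, R a b → rk b = rk a + 1) (k : ℕ) (U : Finset Q) (A : Finset Q)
    (hA : A ⊆ Fr rk R k U) : Fr rk R k ((U \ Fr rk R k U) ∪ A) = Fr rk R k U := by
  apply Fr_congr rk R hR
  intro x hx
  have h1 : x ∉ Fr rk R k U := fun h => hx ((mem_Fr rk R k U x).1 h).1
  simp only [Finset.mem_union, Finset.mem_sdiff, h1, not_false_eq_true, and_true]
  exact ⟨fun h => h.elim id (fun h => absurd (hA h) h1), Or.inl⟩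

/-- fibre of the core map, all closed sets -/
theorem fib_card (hR : ∀ a b, R a b → rk b = rk a + 1) (k : ℕ) (U : Finset Q) (hU : Cl R U) :
    2 ^ #(Fr rk R k U) ≤ #{V ∈ S R | core rk R k V = core rk R k U} := by
  classical
  rw [← Finset.card_powerset]
  apply Finset.card_le_card_of_injOn (fun A => (U \ Fr rk R k U) ∪ A)
  · intro A hA
    rw [Finset.mem_coe, Finset.mem_powerset] at hA
    simp only [Finset.coe_filter, Set.mem_ofPred_eq]
    refine ⟨(mem_S R _).2 (cl_change rk R hR k U hU A hA), ?_⟩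
    unfold core
    rw [Fr_core rk R hR k U A hA]
    ext x
    simp only [Finset.mem_sdiff, Finset.mem_union]
    constructor
    · rintro ⟨h1 | h1, h2⟩
      · exact h1
      · exact absurd (hA h1) h2
    · rintro ⟨h1, h2⟩
      exact ⟨Or.inl ⟨h1, h2⟩, h2⟩
  · intro A hA B hB h
    rw [Finset.mem_coe, Finset.mem_powerset] at hA hB
    simp only at h
    ext x
    have hx := Finset.ext_iff.1 h x
    simp only [Finset.mem_sdiff, Finset.mem_union] at hx
    constructor
    · intro hxA
      rcases hx.1 (Or.inr hxA) with h1 | h1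
      · exact absurd (hA hxA) h1.2
      · exact h1
    · intro hxB
      rcases hx.2 (Or.inr hxB) with h1 | h1
      · exact absurd (hB hxB) h1.2
      · exact h1

/-- fibre of the core map, vanishing Euler characteristic -/
theorem fib_bad (hR : ∀ a b, R a b → rk b = rk a + 1) (hw : ∀ x, 0 < w x) (k : ℕ)
    (U : Finset Q) :
    #{V ∈ S R | mu rk w V = 0 ∧ core rk R k V = core rk R k U} ≤
      (#(Fr rk R k U)).choose (#(Fr rk R k U) / 2) := by
  classical
  refine le_trans ?_ (lo (Fr rk R k U) w hw (- (-1) ^ k * mu rk w (core rk R k U)))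
  have key : ∀ V : Finset Q, core rk R k V = core rk R k U → Fr rk R k V = Fr rk R k U := by
    intro V hV
    apply Fr_congr rk R hR
    intro x hx
    have h1 : x ∉ Fr rk R k U := fun h => hx ((mem_Fr rk R k U x).1 h).1
    have h2 : x ∉ Fr rk R k V := fun h => hx ((mem_Fr rk R k V x).1 h).1
    have := Finset.ext_iff.1 hV x
    simpa [core, h1, h2] using this
  apply Finset.card_le_card_of_injOn (fun V => V ∩ Fr rk R k U)
  · intro V hV
    simp only [Finset.coe_filter, Set.mem_ofPred_eq] at hV ⊢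
    obtain ⟨hVS, hmu, hcore⟩ := hV
    have hF := key V hcore
    refine ⟨by simp, ?_⟩
    have hsplit : mu rk w V = mu rk w (core rk R k U) +
        (-1) ^ k * ∑ x ∈ V ∩ Fr rk R k U, (w x : ℤ) := by
      rw [← hcore]
      have h1 : V = core rk R k V ∪ (V ∩ Fr rk R k U) := by
        unfold core
        rw [hF]
        exact (Finset.sdiff_union_inter V (Fr rk R k U)).symm
      have hd : Disjoint (core rk R k V) (V ∩ Fr rk R k U) := by
        unfold core
        rw [hF]
        exact Finset.disjoint_sdiff_inter V (Fr rk R k U)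
      have h2 : mu rk w V = mu rk w (core rk R k V) + mu rk w (V ∩ Fr rk R k U) := by
        conv_lhs => rw [h1]
        unfold mu
        rw [Finset.sum_union hd]
      rw [h2]
      congr 1
      unfold mu
      rw [Finset.mul_sum]
      apply Finset.sum_congr rfl
      intro x hx
      have hxk := ((mem_Fr rk R k U x).1 (Finset.mem_inter.1 hx).2).1
      have hpow : ((-1 : ℤ)) ^ rk x = (-1) ^ k := by
        rw [neg_one_pow_eq_pow_mod_two, hxk]
      rw [hpow]
    rw [hmu] at hsplit
    have hs : ((-1 : ℤ) ^ k) * (-1) ^ k = 1 := by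
      rw [← mul_pow]; simp
    have : (∑ x ∈ V ∩ Fr rk R k U, (w x : ℤ)) =
        ((-1 : ℤ) ^ k * (-1) ^ k) * ∑ x ∈ V ∩ Fr rk R k U, (w x : ℤ) := by rw [hs, one_mul]
    rw [this]
    linear_combination (-(-1 : ℤ) ^ k) * hsplit
  · intro V hV W hW h
    simp only [Finset.coe_filter, Set.mem_ofPred_eq] at hV hW h
    have h1 : V = core rk R k V ∪ (V ∩ Fr rk R k U) := by
      unfold core
      rw [key V hV.2.2]
      exact (Finset.sdiff_union_inter V (Fr rk R k U)).symm
    have h2 : W = core rk R k W ∪ (W ∩ Fr rk R k U) := by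
      unfold core
      rw [key W hW.2.2]
      exact (Finset.sdiff_union_inter W (Fr rk R k U)).symm
    rw [h1, h2, h, hV.2.2, hW.2.2]

/-- closed sets with many free elements of one parity rarely have Euler characteristic zero -/
theorem manyfree (hR : ∀ a b, R a b → rk b = rk a + 1) (hw : ∀ x, 0 < w x) (k F : ℕ) :
    (#{U ∈ S R | F < #(Fr rk R k U) ∧ mu rk w U = 0} : ℝ) * Real.sqrt (F + 1) ≤ #(S R) := by
  classical
  set B := (S R).filter (fun U => F < #(Fr rk R k U) ∧ mu rk w U = 0) with hB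
  set C := (S R).image (core rk R k) with hC
  have h1 : #B = ∑ c ∈ C, #{V ∈ B | core rk R k V = c} := by
    apply Finset.card_eq_sum_card_fiberwise
    intro V hV
    rw [Finset.mem_coe, hB, Finset.mem_filter] at hV
    exact Finset.mem_coe.2 (Finset.mem_image_of_mem _ hV.1)
  have h2 : #(S R) = ∑ c ∈ C, #{V ∈ S R | core rk R k V = c} := by
    apply Finset.card_eq_sum_card_fiberwise
    intro V hV
    exact Finset.mem_coe.2 (Finset.mem_image_of_mem _ hV)
  rw [h1, h2]
  push_cast
  rw [Finset.sum_mul]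
  apply Finset.sum_le_sum
  intro c hc
  rw [hC, Finset.mem_image] at hc
  obtain ⟨U, hU, rfl⟩ := hc
  have hfs := fib_card rk R hR k U ((mem_S R U).1 hU)
  have key : ∀ V : Finset Q, core rk R k V = core rk R k U → Fr rk R k V = Fr rk R k U := by
    intro V hV
    apply Fr_congr rk R hR
    intro x hx
    have h1 : x ∉ Fr rk R k U := fun h => hx ((mem_Fr rk R k U x).1 h).1
    have h2 : x ∉ Fr rk R k V := fun h => hx ((mem_Fr rk R k V x).1 h).1
    have := Finset.ext_iff.1 hV x
    simpa [core, h1, h2] using this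
  by_cases hm : F < #(Fr rk R k U)
  · have hfb := fib_bad rk R w hR hw k U
    have hsub : #{V ∈ B | core rk R k V = core rk R k U} ≤
        (#(Fr rk R k U)).choose (#(Fr rk R k U) / 2) := by
      refine le_trans (Finset.card_le_card ?_) hfb
      intro V hV
      rw [Finset.mem_filter, hB, Finset.mem_filter] at hV
      rw [Finset.mem_filter]
      exact ⟨hV.1.1, hV.1.2.2, hV.2⟩
    set m := #(Fr rk R k U) with hmdef
    have hsq := choose_sq m
    have hchoose : ((m.choose (m / 2) : ℕ) : ℝ) * Real.sqrt (F + 1) ≤ 2 ^ m := by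
      have h3 : Real.sqrt ((F : ℝ) + 1) ≤ Real.sqrt m := by
        apply Real.sqrt_le_sqrt
        exact_mod_cast hm
      have h4 : ((m.choose (m / 2) : ℕ) : ℝ) * Real.sqrt m ≤ 2 ^ m := by
        apply le_of_sq_le_sq _ (by positivity)
        rw [mul_pow, Real.sq_sqrt (by positivity), ← pow_mul, mul_comm m 2, pow_mul]
        norm_num
        exact_mod_cast hsq
      exact (mul_le_mul_of_nonneg_left h3 (by positivity)).trans h4
    calc ((#{V ∈ B | core rk R k V = core rk R k U} : ℕ) : ℝ) * Real.sqrt (F + 1)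
        ≤ ((m.choose (m / 2) : ℕ) : ℝ) * Real.sqrt (F + 1) := by
          apply mul_le_mul_of_nonneg_right _ (Real.sqrt_nonneg _)
          exact_mod_cast hsub
      _ ≤ 2 ^ m := hchoose
      _ ≤ _ := by exact_mod_cast hfs
  · have h0 : {V ∈ B | core rk R k V = core rk R k U} = ∅ := by
      apply Finset.filter_eq_empty_iff.2
      intro V hV hcV
      rw [hB, Finset.mem_filter] at hV
      rw [key V hcV] at hV
      exact hm hV.2.1
    rw [h0]
    simp

/-- closed sets with few free elements are few -/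
theorem fewfree (hR : ∀ a b, R a b → rk b = rk a + 1) (F : ℕ) :
    #{U ∈ S R | #(Fr rk R 0 U) ≤ F ∧ #(Fr rk R 1 U) ≤ F} ≤
      (Fintype.card Q + 1) ^ (2 * F) := by
  classical
  refine le_trans ?_ (small_sets (2 * F))
  let mn : Finset Q → Finset Q := fun U => U.filter (fun x => ∀ b, R b x → b ∉ U)
  have hmn : ∀ U x, x ∈ mn U ↔ x ∈ U ∧ ∀ b, R b x → b ∉ U := by
    intro U x
    simp [mn]
  have hsub : ∀ U V, Cl R U → Cl R V → mn U = mn V → U ⊆ V := by
    intro U V hU hV hUV
    have : ∀ j, ∀ x ∈ U, rk x ≤ j → x ∈ V := by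
      intro j
      induction j with
      | zero =>
        intro x hx hx0
        have : x ∈ mn U := (hmn U x).2 ⟨hx, fun b hb _ => by have := hR b x hb; omega⟩
        rw [hUV] at this
        exact ((hmn V x).1 this).1
      | succ j ih =>
        intro x hx hxj
        by_cases h : x ∈ mn U
        · rw [hUV] at h
          exact ((hmn V x).1 h).1
        · rw [hmn] at h
          push Not at h
          obtain ⟨b, hb, hbU⟩ := h hx
          have hbx := hR b x hb
          exact hV b x hb (ih b hbU (by omega))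
    intro x hx
    exact this (rk x) x hx le_rfl
  apply Finset.card_le_card_of_injOn mn
  · intro U hU
    rw [Finset.mem_coe, Finset.mem_filter] at hU
    rw [Finset.mem_coe, Finset.mem_filter]
    refine ⟨Finset.mem_univ _, ?_⟩
    have h1 : mn U ⊆ Fr rk R 0 U ∪ Fr rk R 1 U := by
      intro x hx
      rw [hmn] at hx
      rw [Finset.mem_union, mem_Fr, mem_Fr]
      have hc := (mem_S R U).1 hU.1
      rcases Nat.mod_two_eq_zero_or_one (rk x) with h | h
      · exact Or.inl ⟨h, hx.2, fun b hb => hc x b hb hx.1⟩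
      · exact Or.inr ⟨h, hx.2, fun b hb => hc x b hb hx.1⟩
    refine (Finset.card_le_card h1).trans ((Finset.card_union_le _ _).trans ?_)
    have := hU.2
    omega
  · intro U hU V hV h
    rw [Finset.mem_coe, Finset.mem_filter] at hU hV
    have hU' := (mem_S R U).1 hU.1
    have hV' := (mem_S R V).1 hV.1
    exact Finset.Subset.antisymm (hsub U V hU' hV' h) (hsub V U hV' hU' h.symm)

/-- **Main counting theorem**, sharper form. -/
theorem count (hR : ∀ a b, R a b → rk b = rk a + 1) (hw : ∀ x, 0 < w x) (L : ℕ) (hL : 1 ≤ L)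
    (hQ : Fintype.card Q + 1 ≤ 2 ^ L) (k M : ℕ)
    (hM : M ≤ #{x : Q | rk x = k}) :
    (#{U ∈ S R | mu rk w U = 0} : ℝ) * Real.sqrt M ≤ 5 * Real.sqrt L * #(S R) := by
  classical
  have hR' : ∀ a b, R a b → rk a < rk b := fun a b h => by have := hR a b h; omega
  set F := M / (4 * L) with hF
  have hS : (2 : ℝ) ^ M ≤ #(S R) := by exact_mod_cast card_S_ge rk R hR' k M hM
  have hLr : (1 : ℝ) ≤ L := by exact_mod_cast hL
  have hfew : (#{U ∈ S R | #(Fr rk R 0 U) ≤ F ∧ #(Fr rk R 1 U) ≤ F} : ℝ) * Real.sqrt M ≤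
      #(S R) := by
    have h1 : #{U ∈ S R | #(Fr rk R 0 U) ≤ F ∧ #(Fr rk R 1 U) ≤ F} ≤ 2 ^ (M / 2) := by
      refine (fewfree rk R hR F).trans ?_
      refine (Nat.pow_le_pow_left hQ _).trans ?_
      rw [← pow_mul]
      apply Nat.pow_le_pow_right (by norm_num)
      have : 2 * (L * (2 * F)) ≤ M := by
        calc _ = M / (4 * L) * (4 * L) := by rw [hF]; ring
          _ ≤ M := Nat.div_mul_le_self _ _
      omega
    have h2 : (#{U ∈ S R | #(Fr rk R 0 U) ≤ F ∧ #(Fr rk R 1 U) ≤ F} : ℝ) ≤ 2 ^ (M / 2) := by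
      exact_mod_cast h1
    have h3 : Real.sqrt M ≤ 2 ^ (M - M / 2) := by
      rw [Real.sqrt_le_left (by positivity), ← pow_mul]
      have h4 : (M : ℕ) ≤ 2 ^ ((M - M / 2) * 2) := by
        calc M ≤ 2 ^ M := Nat.lt_two_pow_self.le
          _ ≤ 2 ^ ((M - M / 2) * 2) := Nat.pow_le_pow_right (by norm_num) (by omega)
      exact_mod_cast h4
    calc _ ≤ (2 : ℝ) ^ (M / 2) * 2 ^ (M - M / 2) := by
          apply mul_le_mul h2 h3 (Real.sqrt_nonneg _) (by positivity)
      _ = 2 ^ M := by rw [← pow_add]; congr 1; omega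
      _ ≤ _ := hS
  have hmany : ∀ p : ℕ,
      (#{U ∈ S R | F < #(Fr rk R p U) ∧ mu rk w U = 0} : ℝ) * Real.sqrt M ≤
        2 * Real.sqrt L * #(S R) := by
    intro p
    have h1 := manyfree rk R w hR hw p F
    have h2 : Real.sqrt M ≤ 2 * Real.sqrt L * Real.sqrt (F + 1) := by
      rw [Real.sqrt_le_left (by positivity)]
      rw [mul_pow, mul_pow, Real.sq_sqrt (by positivity), Real.sq_sqrt (by positivity)]
      have h3 : M < (4 * L) * (F + 1) := by
        rw [hF]
        exact Nat.lt_mul_div_succ M (by positivity)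
      have h4 : (M : ℝ) ≤ (4 * L) * (F + 1) := by exact_mod_cast h3.le
      linarith
    calc (#{U ∈ S R | F < #(Fr rk R p U) ∧ mu rk w U = 0} : ℝ) * Real.sqrt M
        ≤ (#{U ∈ S R | F < #(Fr rk R p U) ∧ mu rk w U = 0} : ℝ) *
          (2 * Real.sqrt L * Real.sqrt (F + 1)) :=
          mul_le_mul_of_nonneg_left h2 (by positivity)
      _ = 2 * Real.sqrt L *
          ((#{U ∈ S R | F < #(Fr rk R p U) ∧ mu rk w U = 0} : ℝ) * Real.sqrt (F + 1)) := by ring
      _ ≤ _ := mul_le_mul_of_nonneg_left h1 (by positivity)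
  have hunion : #{U ∈ S R | mu rk w U = 0} ≤
      #{U ∈ S R | #(Fr rk R 0 U) ≤ F ∧ #(Fr rk R 1 U) ≤ F} +
      (#{U ∈ S R | F < #(Fr rk R 0 U) ∧ mu rk w U = 0} +
       #{U ∈ S R | F < #(Fr rk R 1 U) ∧ mu rk w U = 0}) := by
    have hsub : {U ∈ S R | mu rk w U = 0} ⊆
        {U ∈ S R | #(Fr rk R 0 U) ≤ F ∧ #(Fr rk R 1 U) ≤ F} ∪
        ({U ∈ S R | F < #(Fr rk R 0 U) ∧ mu rk w U = 0} ∪
         {U ∈ S R | F < #(Fr rk R 1 U) ∧ mu rk w U = 0}) := by
      intro U hU
      rw [Finset.mem_filter] at hU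
      rw [Finset.mem_union, Finset.mem_union, Finset.mem_filter, Finset.mem_filter,
        Finset.mem_filter]
      by_cases h0 : #(Fr rk R 0 U) ≤ F
      · by_cases h1 : #(Fr rk R 1 U) ≤ F
        · exact Or.inl ⟨hU.1, h0, h1⟩
        · exact Or.inr (Or.inr ⟨hU.1, not_le.1 h1, hU.2⟩)
      · exact Or.inr (Or.inl ⟨hU.1, not_le.1 h0, hU.2⟩)
    refine (Finset.card_le_card hsub).trans ((Finset.card_union_le _ _).trans ?_)
    exact Nat.add_le_add_left (Finset.card_union_le _ _) _
  have hunion' : (#{U ∈ S R | mu rk w U = 0} : ℝ) ≤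
      #{U ∈ S R | #(Fr rk R 0 U) ≤ F ∧ #(Fr rk R 1 U) ≤ F} +
      ((#{U ∈ S R | F < #(Fr rk R 0 U) ∧ mu rk w U = 0} : ℝ) +
       #{U ∈ S R | F < #(Fr rk R 1 U) ∧ mu rk w U = 0}) := by
    exact_mod_cast hunion
  have hsL : (1 : ℝ) ≤ Real.sqrt L := by
    rw [Real.le_sqrt (by norm_num) (by positivity)]
    simpa using hLr
  have hSn : (0 : ℝ) ≤ #(S R) := by positivity
  calc (#{U ∈ S R | mu rk w U = 0} : ℝ) * Real.sqrt M
      ≤ (#{U ∈ S R | #(Fr rk R 0 U) ≤ F ∧ #(Fr rk R 1 U) ≤ F} +
      ((#{U ∈ S R | F < #(Fr rk R 0 U) ∧ mu rk w U = 0} : ℝ) +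
       #{U ∈ S R | F < #(Fr rk R 1 U) ∧ mu rk w U = 0})) * Real.sqrt M :=
        mul_le_mul_of_nonneg_right hunion' (Real.sqrt_nonneg _)
    _ ≤ #(S R) + (2 * Real.sqrt L * #(S R) + 2 * Real.sqrt L * #(S R)) := by
        rw [add_mul, add_mul]
        exact add_le_add hfew (add_le_add (hmany 0) (hmany 1))
    _ ≤ 5 * Real.sqrt L * #(S R) := by nlinarith

end abs

end Pool.Agent.W893.EV
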