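import Pool.Agent.W893.EV.Stm
import Pool.Agent.W893.EV.Abs

set_option autoImplicit false

/-! Almost all monotone functions invariant under a permutation group are evasive:
transfer to functions. helper893, for MP_d4e2f9_lc. -/

namespace Pool.Agent.W893.EV

open Finset
open Pool.Agent.W912.KA (Cl S mu mem_S)

variable {n : ℕ} (G : Subgroup (Equiv.Perm (Fin n)))

theorem map_one' {n : ℕ} (A : Finset (Fin n)) :
    A.map (1 : Equiv.Perm (Fin n)).toEmbedding = A := by
  ext i
  rw [Finset.mem_map]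
  constructor
  · rintro ⟨j, hj, rfl⟩
    exact hj
  · intro hi
    exact ⟨i, hi, rfl⟩

theorem tle : ∀ b : Bool, true ≤ b → b = true := by decide

/-- same orbit -/
def rel : Setoid (Finset (Fin n)) where
  r A B := ∃ σ ∈ G, A.map σ.toEmbedding = B
  iseqv := by
    refine ⟨fun A => ⟨1, G.one_mem, map_one' A⟩, ?_, ?_⟩
    · rintro A B ⟨σ, hσ, rfl⟩
      refine ⟨σ⁻¹, G.inv_mem hσ, ?_⟩
      ext i
      simp only [Finset.mem_map, Equiv.coe_toEmbedding]
      constructor
      · rintro ⟨_, ⟨j, hj, rfl⟩, rfl⟩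
        simpa using hj
      · intro hi
        exact ⟨σ i, ⟨i, hi, rfl⟩, by simp⟩
    · rintro A B C ⟨σ, hσ, rfl⟩ ⟨τ, hτ, rfl⟩
      refine ⟨τ * σ, G.mul_mem hτ hσ, ?_⟩
      ext i
      simp only [Finset.mem_map, Equiv.coe_toEmbedding, Equiv.Perm.coe_mul, Function.comp]
      constructor
      · rintro ⟨j, hj, rfl⟩
        exact ⟨σ j, ⟨j, hj, rfl⟩, rfl⟩
      · rintro ⟨_, ⟨j, hj, rfl⟩, rfl⟩
        exact ⟨j, hj, rfl⟩

/-- orbits -/
abbrev QQ : Type := Quotient (rel G)

noncomputable instance : Fintype (QQ G) := Fintype.ofFinite _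

noncomputable instance : DecidableEq (QQ G) := Classical.decEq _

/-- the orbit of a set -/
def cls (A : Finset (Fin n)) : QQ G := Quotient.mk (rel G) A

theorem cls_eq {A B : Finset (Fin n)} :
    cls G A = cls G B ↔ ∃ σ ∈ G, A.map σ.toEmbedding = B :=
  ⟨fun h => Quotient.exact h, fun h => Quotient.sound h⟩

theorem cls_out (a : QQ G) : cls G (Quotient.out a) = a := Quotient.out_eq a

/-- size -/
noncomputable def rkQ (a : QQ G) : ℕ := #(Quotient.out a)

theorem rk_cls (A : Finset (Fin n)) : rkQ G (cls G A) = #A := by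
  unfold rkQ
  obtain ⟨σ, -, hσ⟩ := (cls_eq G).1 (cls_out G (cls G A))
  conv_rhs => rw [← hσ]
  rw [Finset.card_map]

/-- covering relation -/
def RQ (a b : QQ G) : Prop :=
  ∃ A B : Finset (Fin n), cls G A = a ∧ cls G B = b ∧ A ⊆ B ∧ #B = #A + 1

theorem RQ_rk (a b : QQ G) (h : RQ G a b) : rkQ G b = rkQ G a + 1 := by
  obtain ⟨A, B, rfl, rfl, -, h⟩ := h
  rw [rk_cls, rk_cls, h]

open Classical in
/-- size of an orbit -/
noncomputable def wQ (a : QQ G) : ℕ := #{A : Finset (Fin n) | cls G A = a}

theorem wQ_pos (a : QQ G) : 0 < wQ G a := by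
  classical
  unfold wQ
  apply Finset.card_pos.2
  exact ⟨Quotient.out a, Finset.mem_filter.2 ⟨Finset.mem_univ _, cls_out G a⟩⟩

/-- closed sets are closed under containment -/
theorem cl_mono (U : Finset (QQ G)) (hU : Cl (RQ G) U) :
    ∀ d : ℕ, ∀ A B : Finset (Fin n), A ⊆ B → #B = #A + d → cls G A ∈ U → cls G B ∈ U := by
  intro d
  induction d with
  | zero =>
    intro A B hAB hc hA
    have : A = B := Finset.eq_of_subset_of_card_le hAB (by omega)
    rwa [← this]
  | succ d ih =>
    intro A B hAB hc hA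
    have hne : (B \ A).Nonempty := by
      rw [← Finset.card_pos, Finset.card_sdiff_of_subset hAB]
      omega
    obtain ⟨x, hx⟩ := hne
    rw [Finset.mem_sdiff] at hx
    have h1 : #(B.erase x) = #A + d := by
      rw [Finset.card_erase_of_mem hx.1]; omega
    have h2 : A ⊆ B.erase x := fun y hy =>
      Finset.mem_erase.2 ⟨fun h => hx.2 (h ▸ hy), hAB hy⟩
    have h3 := ih A (B.erase x) h2 h1 hA
    exact hU _ _ ⟨B.erase x, B, rfl, rfl, Finset.erase_subset _ _, by omega⟩ h3

theorem ind_le {A B : Finset (Fin n)} (h : A ⊆ B) : ind A ≤ ind B := by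
  intro i
  unfold ind
  by_cases hi : i ∈ A
  · simp [hi, h hi]
  · simp [hi]

/-- the support of a vector -/
def sup (x : Fin n → Bool) : Finset (Fin n) := univ.filter (fun i => x i = true)

theorem ind_sup (x : Fin n → Bool) : ind (sup x) = x := by
  funext i
  unfold ind sup
  cases h : x i <;> simp [h]

theorem sup_ind (A : Finset (Fin n)) : sup (ind A) = A := by
  ext i
  simp [ind, sup]

theorem inv_cls {f : (Fin n → Bool) → Bool}
    (hf : ∀ σ ∈ G, ∀ x : Fin n → Bool, f (x ∘ σ) = f x) {A B : Finset (Fin n)}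
    (h : cls G A = cls G B) : f (ind A) = f (ind B) := by
  obtain ⟨σ, hσ, rfl⟩ := (cls_eq G).1 h
  rw [← hf σ hσ (ind (A.map σ.toEmbedding))]
  congr 1
  funext i
  simp [ind]

open Classical in
/-- the set of orbits on which a function is true -/
noncomputable def US (f : (Fin n → Bool) → Bool) : Finset (QQ G) :=
  univ.filter (fun a => f (ind (Quotient.out a)) = true)

theorem mem_US {f : (Fin n → Bool) → Bool}
    (hf : ∀ σ ∈ G, ∀ x : Fin n → Bool, f (x ∘ σ) = f x) (A : Finset (Fin n)) :
    cls G A ∈ US G f ↔ f (ind A) = true := by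
  classical
  unfold US
  rw [Finset.mem_filter]
  rw [inv_cls G hf (cls_out G (cls G A))]
  simp

theorem US_cl {f : (Fin n → Bool) → Bool} (hm : Monotone f)
    (hf : ∀ σ ∈ G, ∀ x : Fin n → Bool, f (x ∘ σ) = f x) : Cl (RQ G) (US G f) := by
  rintro a b ⟨A, B, rfl, rfl, hAB, -⟩ ha
  rw [mem_US G hf] at ha ⊢
  have := hm (ind_le hAB)
  rw [ha] at this
  exact tle _ this

theorem US_mu {f : (Fin n → Bool) → Bool}
    (hf : ∀ σ ∈ G, ∀ x : Fin n → Bool, f (x ∘ σ) = f x) :
    mu (rkQ G) (wQ G) (US G f) =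
      ∑ A : Finset (Fin n), (-1 : ℤ) ^ #A * (if f (ind A) = true then 1 else 0) := by
  classical
  have h1 : ∑ A : Finset (Fin n), (-1 : ℤ) ^ #A * (if f (ind A) = true then 1 else 0) =
      ∑ a : QQ G, ∑ A ∈ (univ : Finset (Finset (Fin n))).filter (fun A => cls G A = a),
        (-1 : ℤ) ^ #A * (if f (ind A) = true then 1 else 0) :=
    (Finset.sum_fiberwise (s := (univ : Finset (Finset (Fin n)))) (g := cls G)
      (f := fun A => (-1 : ℤ) ^ #A * (if f (ind A) = true then 1 else 0))).symm
  rw [h1]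
  have h2 : ∀ a : QQ G,
      ∑ A ∈ (univ : Finset (Finset (Fin n))).filter (fun A => cls G A = a),
        (-1 : ℤ) ^ #A * (if f (ind A) = true then 1 else 0) =
      if a ∈ US G f then (-1 : ℤ) ^ (rkQ G a) * (wQ G a : ℤ) else 0 := by
    intro a
    have h3 : ∀ A ∈ (univ : Finset (Finset (Fin n))).filter (fun A => cls G A = a),
        (-1 : ℤ) ^ #A * (if f (ind A) = true then 1 else 0) =
        if a ∈ US G f then (-1 : ℤ) ^ (rkQ G a) else 0 := by
      intro A hA
      have hA' := (Finset.mem_filter.1 hA).2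
      subst hA'
      rw [rk_cls]
      by_cases h : f (ind A) = true
      · rw [if_pos h, if_pos ((mem_US G hf A).2 h), mul_one]
      · rw [if_neg h, if_neg (fun h' => h ((mem_US G hf A).1 h')), mul_zero]
    rw [Finset.sum_congr rfl h3, Finset.sum_const, nsmul_eq_mul]
    by_cases h : a ∈ US G f
    · rw [if_pos h, if_pos h]
      unfold wQ
      ring
    · rw [if_neg h, if_neg h, mul_zero]
  rw [Finset.sum_congr rfl (fun a _ => h2 a)]
  unfold mu
  rw [← Finset.sum_filter]
  apply Finset.sum_congr _ (fun _ _ => rfl)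
  ext a
  simp

open Classical in
/-- the function of a set of orbits -/
noncomputable def fU (U : Finset (QQ G)) : (Fin n → Bool) → Bool :=
  fun x => decide (cls G (sup x) ∈ U)

theorem fU_inv (U : Finset (QQ G)) : ∀ σ ∈ G, ∀ x : Fin n → Bool, fU G U (x ∘ σ) = fU G U x := by
  classical
  intro σ hσ x
  unfold fU
  have : cls G (sup (x ∘ σ)) = cls G (sup x) := by
    rw [cls_eq]
    refine ⟨σ, hσ, ?_⟩
    ext i
    simp only [sup, Finset.mem_map, Finset.mem_filter, Finset.mem_univ, true_and,
      Equiv.coe_toEmbedding, Function.comp]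
    constructor
    · rintro ⟨j, hj, rfl⟩
      exact hj
    · intro hi
      exact ⟨σ.symm i, by simpa using hi, by simp⟩
  rw [this]

theorem sup_mono {x y : Fin n → Bool} (h : x ≤ y) : sup x ⊆ sup y := by
  intro i hi
  simp only [sup, Finset.mem_filter, Finset.mem_univ, true_and] at hi ⊢
  have := h i
  rw [hi] at this
  exact tle _ this

theorem fU_mono (U : Finset (QQ G)) (hU : Cl (RQ G) U) : Monotone (fU G U) := by
  classical
  intro x y hxy
  have h := sup_mono hxy
  unfold fU
  by_cases hx : cls G (sup x) ∈ U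
  · have hc : #(sup y) = #(sup x) + (#(sup y) - #(sup x)) := by
      have := Finset.card_le_card h
      omega
    have hy := cl_mono G U hU _ _ _ h hc hx
    simp [hx, hy]
  · simp [hx]

theorem fU_inj {U V : Finset (QQ G)} (h : fU G U = fU G V) : U = V := by
  classical
  ext a
  have h1 := congrFun h (ind (Quotient.out a))
  unfold fU at h1
  rw [sup_ind, cls_out] at h1
  simpa using h1

/-- non-evasive functions are few, in terms of closed sets -/
theorem nonev_le (hE : EUL) (hn : 1 ≤ n) :
    {f | f ∈ Inv G ∧ ¬ Evasive f}.ncard ≤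
      #{U ∈ S (RQ G) | mu (rkQ G) (wQ G) U = 0} := by
  classical
  rw [← Set.ncard_coe_finset]
  apply Set.ncard_le_ncard_of_injOn (US G)
  · rintro f ⟨⟨hm, -, hf⟩, hev⟩
    rw [Finset.mem_coe, Finset.mem_filter, mem_S]
    refine ⟨US_cl G hm hf, ?_⟩
    rw [US_mu G hf]
    unfold Evasive at hev
    push Not at hev
    obtain ⟨k, hk, hkn⟩ := hev
    exact hE n k f hkn hk
  · rintro f ⟨⟨hm, -, hf⟩, -⟩ g ⟨⟨hm', -, hg⟩, -⟩ h
    funext x
    have h1 := mem_US G hf (sup x)
    have h2 := mem_US G hg (sup x)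
    rw [ind_sup] at h1 h2
    rw [h] at h1
    have h3 := h1.symm.trans h2
    cases hfx : f x <;> cases hgx : g x <;> simp_all

/-- all closed sets are at most three times the non-trivial functions -/
theorem S_le (hn : 1 ≤ n) : #(S (RQ G)) ≤ 3 * (Inv G).ncard := by
  classical
  have h1 : #(S (RQ G)) ≤ (Inv G ∪ {(fun _ => true), (fun _ => false)}).ncard := by
    rw [← Set.ncard_coe_finset]
    apply Set.ncard_le_ncard_of_injOn (fU G)
    · intro U hU
      rw [Finset.mem_coe, mem_S] at hU
      by_cases h : ∃ x y, fU G U x ≠ fU G U y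
      · exact Or.inl ⟨fU_mono G U hU, h, fU_inv G U⟩
      · push Not at h
        right
        rcases hb : fU G U (fun _ => false) with _ | _
        · right
          rw [Set.mem_singleton_iff]
          funext x
          rw [h x (fun _ => false), hb]
        · left
          funext x
          rw [h x (fun _ => false), hb]
    · intro U _ V _ h
      exact fU_inj G h
  have h2 : (Inv G ∪ {(fun _ => true), (fun _ => false)}).ncard ≤ (Inv G).ncard + 2 := by
    refine (Set.ncard_union_le _ _).trans ?_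
    have := Set.ncard_insert_le (fun _ : Fin n → Bool => true) {(fun _ : Fin n → Bool => false)}
    rw [Set.ncard_singleton] at this
    omega
  have h3 : 1 ≤ (Inv G).ncard := by
    have hne : (Inv G).Nonempty := by
      refine ⟨fun x => decide (∃ i, x i = true), ?_, ?_, ?_⟩
      · intro x y hxy
        by_cases h : ∃ i, x i = true
        · obtain ⟨i, hi⟩ := h
          have h4 := hxy i
          rw [hi] at h4
          have h5 : ∃ i, y i = true := ⟨i, tle _ h4⟩
          simp only [h5, decide_true]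
          exact Bool.le_true _
        · simp [h]
      · refine ⟨fun _ => true, fun _ => false, ?_⟩
        have : Nonempty (Fin n) := ⟨⟨0, by omega⟩⟩
        simp
      · intro σ _ x
        have : (∃ i, (x ∘ σ) i = true) ↔ ∃ i, x i = true := by
          constructor
          · rintro ⟨i, hi⟩; exact ⟨σ i, hi⟩
          · rintro ⟨i, hi⟩; exact ⟨σ.symm i, by simpa using hi⟩
        simp only [this]
    have := (Set.ncard_pos (Set.toFinite _)).2 hne
    omega
  omega

/-- the number of orbits on `k`-sets -/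
theorem orbits_eq (k : ℕ) : #{a : QQ G | rkQ G a = k} = orbits G k := by
  classical
  unfold orbits
  have himg : {O | ∃ A : Finset (Fin n), #A = k ∧ O = orb G A} =
      (fun a : QQ G => orb G (Quotient.out a)) '' {a : QQ G | rkQ G a = k} := by
    ext O
    constructor
    · rintro ⟨A, hA, rfl⟩
      refine ⟨cls G A, by simpa [rk_cls] using hA, ?_⟩
      obtain ⟨σ, hσ, h⟩ := (cls_eq G).1 (cls_out G (cls G A))
      have key : ∀ B : Finset (Fin n), ∀ σ ∈ G, orb G (B.map σ.toEmbedding) = orb G B := by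
        intro B σ hσ
        ext C
        constructor
        · rintro ⟨τ, hτ, rfl⟩
          refine ⟨τ * σ, G.mul_mem hτ hσ, ?_⟩
          ext i
          simp only [Finset.mem_map, Equiv.coe_toEmbedding, Equiv.Perm.coe_mul, Function.comp]
          constructor
          · rintro ⟨_, ⟨j, hj, rfl⟩, rfl⟩
            exact ⟨j, hj, rfl⟩
          · rintro ⟨j, hj, rfl⟩
            exact ⟨σ j, ⟨j, hj, rfl⟩, rfl⟩
        · rintro ⟨τ, hτ, rfl⟩
          refine ⟨τ * σ⁻¹, G.mul_mem hτ (G.inv_mem hσ), ?_⟩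
          ext i
          simp only [Finset.mem_map, Equiv.coe_toEmbedding, Equiv.Perm.coe_mul, Function.comp]
          constructor
          · rintro ⟨j, hj, rfl⟩
            exact ⟨σ j, ⟨j, hj, rfl⟩, by simp⟩
          · rintro ⟨_, ⟨j, hj, rfl⟩, rfl⟩
            exact ⟨j, hj, by simp⟩
      change orb G (Quotient.out (cls G A)) = orb G A
      rw [← key (Quotient.out (cls G A)) σ hσ, h]
    · rintro ⟨a, ha, rfl⟩
      exact ⟨Quotient.out a, ha, rfl⟩
  rw [himg, Set.ncard_image_of_injOn]
  · rw [← Set.ncard_coe_finset]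
    congr 1
    ext a
    simp
  · intro a _ b _ h
    have h1 : Quotient.out a ∈ orb G (Quotient.out a) :=
      ⟨1, G.one_mem, (map_one' _).symm⟩
    simp only at h
    rw [h] at h1
    obtain ⟨σ, hσ, h2⟩ := h1
    have : cls G (Quotient.out b) = cls G (Quotient.out a) := (cls_eq G).2 ⟨σ, hσ, h2.symm⟩
    rw [cls_out, cls_out] at this
    exact this.symm

theorem card_QQ (M : ℕ) (hM : ∀ k, orbits G k ≤ M) :
    Fintype.card (QQ G) ≤ (n + 1) * M := by
  classical
  have h1 : Fintype.card (QQ G) =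
      ∑ k ∈ Finset.range (n + 1), #{a : QQ G | rkQ G a = k} := by
    rw [← Finset.card_univ]
    apply Finset.card_eq_sum_card_fiberwise
    intro a _
    rw [Finset.mem_coe, Finset.mem_range]
    unfold rkQ
    have := Finset.card_le_univ (Quotient.out a)
    rw [Fintype.card_fin] at this
    omega
  rw [h1]
  calc _ ≤ ∑ _k ∈ Finset.range (n + 1), M := by
        apply Finset.sum_le_sum
        intro k _
        exact (le_of_eq (orbits_eq G k)).trans (hM k)
    _ = (n + 1) * M := by rw [Finset.sum_const, Finset.card_range, smul_eq_mul]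

theorem card_QQ' : Fintype.card (QQ G) ≤ 2 ^ n := by
  classical
  have h := Fintype.card_le_of_injective (Quotient.out : QQ G → Finset (Fin n))
    (fun a b h => by rw [← cls_out G a, ← cls_out G b, h])
  rwa [Fintype.card_finset, Fintype.card_fin] at h

/-- **General inequality.** -/
theorem main (hE : EUL) (hn : 1 ≤ n) (L : ℕ) (hL : 1 ≤ L)
    (hQ : Fintype.card (QQ G) + 1 ≤ 2 ^ L) (k : ℕ) :
    ({f | f ∈ Inv G ∧ ¬ Evasive f}.ncard : ℝ) * Real.sqrt (orbits G k) ≤
      15 * Real.sqrt L * (Inv G).ncard := by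
  classical
  have h := count (rkQ G) (RQ G) (wQ G) (RQ_rk G) (wQ_pos G) L hL hQ k (orbits G k)
    (le_of_eq (orbits_eq G k).symm)
  have h1 : ({f | f ∈ Inv G ∧ ¬ Evasive f}.ncard : ℝ) ≤
      #{U ∈ S (RQ G) | mu (rkQ G) (wQ G) U = 0} := by exact_mod_cast nonev_le G hE hn
  have h2 : (#(S (RQ G)) : ℝ) ≤ 3 * (Inv G).ncard := by exact_mod_cast S_le G hn
  calc _ ≤ (#{U ∈ S (RQ G) | mu (rkQ G) (wQ G) U = 0} : ℝ) * Real.sqrt (orbits G k) :=
        mul_le_mul_of_nonneg_right h1 (Real.sqrt_nonneg _)
    _ ≤ 5 * Real.sqrt L * #(S (RQ G)) := h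
    _ ≤ 5 * Real.sqrt L * (3 * (Inv G).ncard) :=
        mul_le_mul_of_nonneg_left h2 (by positivity)
    _ = _ := by ring

end Pool.Agent.W893.EV
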