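import Mathlib

set_option autoImplicit false

/-! Almost all monotone functions invariant under a permutation group are evasive:
definitions and statements of the parts. helper893, for MP_d4e2f9_lc. -/

namespace Pool.Agent.W893.EV

open Finset

/-- the 0/1 vector of a set of variables -/
def ind {n : ℕ} (A : Finset (Fin n)) : Fin n → Bool := fun i => decide (i ∈ A)

/-- `f` is computed by a decision tree of depth at most `k` (words of the frozen statement) -/
def DepthLe {n : ℕ} (k : ℕ) (f : (Fin n → Bool) → Bool) : Prop :=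
  ∀ P : ℕ → ((Fin n → Bool) → Bool) → Prop,
    (∀ (m : ℕ) (g : (Fin n → Bool) → Bool), (∀ x y, g x = g y) → P m g) →
    (∀ (m : ℕ) (g : (Fin n → Bool) → Bool) (i : Fin n),
       P m (fun x => g (Function.update x i false)) →
       P m (fun x => g (Function.update x i true)) → P (m + 1) g) →
    P k f

/-- evasive: every decision tree has depth at least `n` -/
def Evasive {n : ℕ} (f : (Fin n → Bool) → Bool) : Prop := ∀ k, DepthLe k f → n ≤ k

/-- the non-trivial monotone functions invariant under `G` -/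
def Inv {n : ℕ} (G : Subgroup (Equiv.Perm (Fin n))) : Set ((Fin n → Bool) → Bool) :=
  {f | Monotone f ∧ (∃ x y, f x ≠ f y) ∧ ∀ σ ∈ G, ∀ x : Fin n → Bool, f (x ∘ σ) = f x}

/-- the orbit of a set of variables -/
def orb {n : ℕ} (G : Subgroup (Equiv.Perm (Fin n))) (A : Finset (Fin n)) :
    Set (Finset (Fin n)) := {B | ∃ σ ∈ G, B = A.map σ.toEmbedding}

/-- the number of orbits of `G` on the `k`-element sets of variables -/
noncomputable def orbits {n : ℕ} (G : Subgroup (Equiv.Perm (Fin n))) (k : ℕ) : ℕ :=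
  {O | ∃ A : Finset (Fin n), #A = k ∧ O = orb G A}.ncard

/-- `G` is transitive -/
def Trans {n : ℕ} (G : Subgroup (Equiv.Perm (Fin n))) : Prop := ∀ i j : Fin n, ∃ σ ∈ G, σ i = j

/-- `G` preserves an equivalence relation which is not trivial -/
def Imprim {n : ℕ} (G : Subgroup (Equiv.Perm (Fin n))) : Prop :=
  ∃ r : Setoid (Fin n), (∀ σ ∈ G, ∀ i j, r i j → r (σ i) (σ j)) ∧
    (∃ i j, i ≠ j ∧ r i j) ∧ ∃ i j, ¬ r i j

/-- Part EUL -/
def EUL : Prop := ∀ (n k : ℕ) (f : (Fin n → Bool) → Bool), k < n → DepthLe k f →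
  ∑ A : Finset (Fin n), (-1 : ℤ) ^ #A * (if f (ind A) = true then 1 else 0) = 0

/-- Part ALT -/
def ALT : Prop := ∀ (n : ℕ), 3 ≤ n → ∀ G : Subgroup (Equiv.Perm (Fin n)),
  alternatingGroup (Fin n) ≤ G → ∀ f ∈ Inv G,
  ∑ A : Finset (Fin n), (-1 : ℤ) ^ #A * (if f (ind A) = true then 1 else 0) ≠ 0

/-- Part IMP -/
def IMP : Prop := ∀ (n : ℕ) (G : Subgroup (Equiv.Perm (Fin n))), Trans G → Imprim G →
  ∃ k, n ≤ 4 * orbits G k ^ 2

/-- Part ORD -/
def ORD : Prop := ∀ (n k : ℕ) (G : Subgroup (Equiv.Perm (Fin n))),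
  n.choose k ≤ Nat.card G * orbits G k

/-- Part ASY -/
def ASY : Prop := ∀ ε : ℝ, 0 < ε → ∃ N : ℕ, ∀ n M : ℕ, N ≤ n → n ≤ 4 * M ^ 2 →
  15 * Real.sqrt (Nat.clog 2 ((n + 1) * M + 1)) ≤ ε * Real.sqrt M

end Pool.Agent.W893.EV
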